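import Pool.Agent.Q240.CG.Stm

set_option autoImplicit false

open Polynomial Filter Topology Finset MeasureTheory

namespace Pool.Agent.Q151.CG

open Pool.Agent.Q240.CD Pool.Agent.Q240.CG
open Pool.Agent.Q202.CD (xk_pos)

/-- **Inty1** (after `Pool/Agent/Q202/CD/Inty.lean` of helper202) -/
theorem inty1 : S_Inty1 := by
  intro a n ha
  have hB : S_SpB := a_spB
  have hF : S_Far := a_far
  have hX := xk_pos ha n
  set X := xk a (n + 1) with hXd
  set C₁ : ℝ := Real.exp (2 * a) * X ^ (4 * n) / (a ^ 2 * 4 ^ n) with hC₁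
  have hC₁p : 0 < C₁ := by positivity
  set D : ℝ := 2 / X + 1 with hD
  have hDp : 0 < D := by positivity
  have hcont : Continuous fun z : ℂ => ‖Sp a n z‖ ^ 2 * (1 + ‖z‖) ^ (4 * n + 2) := by
    have h1 : Continuous (Sp a n) := (hB a n).1.continuous
    fun_prop
  obtain ⟨C₂, hC₂⟩ := (isCompact_closedBall (0 : ℂ) (X + 1)).bddAbove_image hcont.continuousOn
  refine ⟨C₁ * D ^ (4 * n + 2) + |C₂|, by positivity, fun z hz => ?_⟩
  have hpos : 0 < (1 + ‖z‖) ^ (4 * n + 2) := by positivity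
  rw [le_div_iff₀ hpos]
  rcases le_total X |z.re| with h | h
  · have hre : 0 < |z.re| := hX.trans_le h
    have h1 := hF a n z ha h
    have h2 : Real.exp (2 * a * |z.im|) / ((a * z.re) ^ 2 * (|z.re| / xk a (n + 1)) ^ (4 * n) *
        4 ^ n) ≤ C₁ / |z.re| ^ (4 * n + 2) := by
      have h3 : (a * z.re) ^ 2 * (|z.re| / xk a (n + 1)) ^ (4 * n) * 4 ^ n =
          (a ^ 2 * 4 ^ n) * |z.re| ^ (4 * n + 2) / X ^ (4 * n) := by
        rw [mul_pow, ← sq_abs z.re, div_pow, pow_add, ← hXd]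
        ring
      rw [h3, hC₁, div_div_eq_mul_div, div_div]
      have hnum : Real.exp (2 * a * |z.im|) ≤ Real.exp (2 * a) := by
        apply Real.exp_le_exp.2
        nlinarith [abs_nonneg z.im]
      gcongr
    have h4 : 1 + ‖z‖ ≤ D * |z.re| := by
      have h5 : ‖z‖ ≤ |z.re| + |z.im| := Complex.norm_le_abs_re_add_abs_im z
      have h6 : 2 ≤ 2 / X * |z.re| := by
        rw [div_mul_eq_mul_div, le_div_iff₀ hX]
        nlinarith
      have h7 : D * |z.re| = 2 / X * |z.re| + |z.re| := by rw [hD]; ring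
      rw [h7]
      linarith
    have h5 : (1 + ‖z‖) ^ (4 * n + 2) ≤ D ^ (4 * n + 2) * |z.re| ^ (4 * n + 2) := by
      rw [← mul_pow]
      exact pow_le_pow_left₀ (by positivity) h4 _
    calc ‖Sp a n z‖ ^ 2 * (1 + ‖z‖) ^ (4 * n + 2)
        ≤ (C₁ / |z.re| ^ (4 * n + 2)) * (D ^ (4 * n + 2) * |z.re| ^ (4 * n + 2)) :=
          mul_le_mul (h1.trans h2) h5 hpos.le (by positivity)
      _ = C₁ * D ^ (4 * n + 2) := by
          have : |z.re| ^ (4 * n + 2) ≠ 0 := by positivity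
          field_simp
      _ ≤ _ := le_add_of_nonneg_right (abs_nonneg _)
  · have h1 : z ∈ Metric.closedBall (0 : ℂ) (X + 1) := by
      rw [mem_closedBall_zero_iff]
      exact (Complex.norm_le_abs_re_add_abs_im z).trans (add_le_add h hz)
    have h2 : ‖Sp a n z‖ ^ 2 * (1 + ‖z‖) ^ (4 * n + 2) ≤ C₂ := hC₂ ⟨z, h1, rfl⟩
    have h3 : 0 ≤ C₁ * D ^ (4 * n + 2) := by positivity
    linarith [le_abs_self C₂]

end Pool.Agent.Q151.CG
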