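import Pool.Agent.Q151.CG.Dom1

set_option autoImplicit false

open Polynomial Filter Topology Finset MeasureTheory

namespace Pool.Agent.Q151.CG

open Pool.Agent.Q240.CD Pool.Agent.Q240.CG
open Pool.Agent.Q289.CD (poly_bound lul_at)

/-- **LimSum1** (after `Pool/Agent/Q289/CD/Lim.lean` of helper289) -/
theorem limSum1 : S_LimSum1 := by
  have hL : S_LimS := a_limS
  have hD : S_DomK1 := domK1
  intro n κ hκ hn β m z hm hz hs p
  obtain ⟨Cp, hCp, hp⟩ := poly_bound p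
  obtain ⟨C, hC, hdom⟩ := hD n κ hκ hn (p.natDegree + 2)
  -- pointwise limit
  have hpt : ∀ w : ℂ, Tendsto (fun a => Sp a (n a) w) atTop (𝓝 (Complex.exp (-(ck κ * w ^ 2)))) :=
    fun w => lul_at (hL n κ hκ hn) w
  have hsq : ∀ w : ℂ, Complex.exp (-(2 * ck κ * w ^ 2)) = Complex.exp (-(ck κ * w ^ 2)) ^ 2 := by
    intro w
    rw [← Complex.exp_nat_mul]
    congr 1
    push_cast
    ring
  have hterm : ∀ (b : β) (s : ℂ), ‖s‖ ^ 2 ≤ C / (1 + ‖z b‖) ^ (p.natDegree + 2) →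
      ‖(m b : ℂ) * (p.eval (z b) * s ^ 2)‖ ≤ Cp * C * (m b / (1 + ‖z b‖) ^ 2) := by
    intro b s hsb
    have h0 : 0 < 1 + ‖z b‖ := by linarith [norm_nonneg (z b)]
    rw [norm_mul, norm_mul, norm_pow, Complex.norm_real, Real.norm_eq_abs, abs_of_nonneg (hm b)]
    calc m b * (‖p.eval (z b)‖ * ‖s‖ ^ 2) ≤
        m b * ((Cp * (1 + ‖z b‖) ^ p.natDegree) * (C / (1 + ‖z b‖) ^ (p.natDegree + 2))) := by
          refine mul_le_mul_of_nonneg_left ?_ (hm b)
          exact mul_le_mul (hp _) hsb (by positivity) (by positivity)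
      _ = Cp * C * (m b / (1 + ‖z b‖) ^ 2) := by
          rw [pow_add]
          field_simp
  have hbd : ∀ᶠ a in atTop, ∀ b, ‖(m b : ℂ) * (p.eval (z b) * Sp a (n a) (z b) ^ 2)‖ ≤
      Cp * C * (m b / (1 + ‖z b‖) ^ 2) := by
    filter_upwards [hdom] with a ha b
    exact hterm b _ (ha _ (hz b))
  have hlimb : ∀ b, ‖Complex.exp (-(ck κ * z b ^ 2))‖ ^ 2 ≤
      C / (1 + ‖z b‖) ^ (p.natDegree + 2) := by
    intro b
    refine le_of_tendsto (((hpt (z b)).norm).pow 2) ?_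
    filter_upwards [hdom] with a ha
    exact ha _ (hz b)
  refine ⟨?_, ?_, ?_⟩
  · filter_upwards [hbd] with a ha
    exact Summable.of_norm_bounded (hs.mul_left (Cp * C)) ha
  · refine Summable.of_norm_bounded (hs.mul_left (Cp * C)) fun b => ?_
    rw [hsq]
    exact hterm b _ (hlimb b)
  · simp_rw [hsq]
    refine tendsto_tsum_of_dominated_convergence (hs.mul_left (Cp * C)) (fun b => ?_) hbd
    exact (((hpt (z b)).pow 2).const_mul _).const_mul _

end Pool.Agent.Q151.CG
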